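import Pool.Agent.Helper74.HG.GoalsC
import Pool.Agent.Helper63.HG.CNT

/-! # HG-CNK: the number of arcs of `f + w l`, coefficients in `K` (port of `HG-CNT`) -/

set_option autoImplicit false

namespace Pool.Agent.Helper55.HG.CNK

open MvPolynomial Pool.Agent.Helper74.HG Pool.Agent.Helper63.HG.CNT

open scoped Classical

theorem aeval_memK (K : Type) [Field K] {σ : Type} (m : ℕ) (f : MvPolynomial σ K)
    (hf : constantCoeff f = 0) (x : σ → Tr K m) (hx : x ∈ Arc K σ m) :
    aeval x f ∈ Ideal.span {tt K m} := by
  have key : ∀ g : MvPolynomial σ K,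
      aeval x g - algebraMap K (Tr K m) (constantCoeff g) ∈ Ideal.span {tt K m} := by
    intro g
    induction g using MvPolynomial.induction_on with
    | C a =>
      rw [algHom_C, constantCoeff_C, sub_self]
      exact Ideal.zero_mem _
    | add p q hp hq =>
      rw [map_add, map_add, map_add, add_sub_add_comm]
      exact Ideal.add_mem _ hp hq
    | mul_X p i _ =>
      rw [map_mul, map_mul, constantCoeff_X, mul_zero, aeval_X, map_zero, sub_zero]
      exact Ideal.mul_mem_left _ _ (hx i)
  have h1 := key f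
  rw [hf, map_zero, sub_zero] at h1
  exact h1

theorem aeval_stabK (K : Type) [Field K] {σ : Type} (m : ℕ) (f : MvPolynomial σ K)
    (y : Option (Option σ) → Tr K m) :
    aeval y (stabK f) = aeval (fun i => y (some (some i))) f + y none * y (some none) := by
  unfold stabK
  rw [map_add, map_mul, aeval_X, aeval_X, aeval_rename]
  rfl

theorem cnt_eqK (K : Type) [Field K] [Finite K] {σ : Type} [Fintype σ] (f : MvPolynomial σ K)
    (m : ℕ) (hA : (Arc K σ m).Finite) :
    cntK K (stabK f) m = ∑ x ∈ hA.toFinset, (Pr K m (aeval x f)).ncard := by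
  have := finite_Tr K m
  have hJ : (JetK K (stabK f) m).Finite := Set.toFinite _
  unfold cntK
  rw [Set.ncard_eq_toFinset_card _ hJ]
  rw [Finset.card_eq_sum_card_fiberwise (f := fun y : Option (Option σ) → Tr K m =>
    fun i => y (some (some i))) (t := hA.toFinset)]
  · refine Finset.sum_congr rfl fun x hx => ?_
    have hP : (Pr K m (aeval x f)).Finite := Set.toFinite _
    rw [Set.ncard_eq_toFinset_card _ hP]
    rw [Set.Finite.mem_toFinset] at hx
    refine Finset.card_nbij' (fun y => (y none, y (some none))) (fun p => glue x p) ?_ ?_ ?_ ?_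
    · intro y hy
      simp only [Finset.coe_filter, Set.Finite.mem_toFinset, Set.mem_ofPred_eq,
        Set.Finite.coe_toFinset] at hy ⊢
      obtain ⟨⟨h1, h2, h3⟩, h4⟩ := hy
      rw [aeval_stabK, h4] at h2 h3
      exact ⟨h1 none, h1 (some none), h2, h3⟩
    · intro p hp
      simp only [Finset.coe_filter, Set.Finite.mem_toFinset, Set.mem_ofPred_eq,
        Set.Finite.coe_toFinset] at hp ⊢
      obtain ⟨h1, h2, h3, h4⟩ := hp
      refine ⟨⟨?_, ?_, ?_⟩, rfl⟩
      · intro o
        rcases o with _ | _ | i
        · exact h1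
        · exact h2
        · exact hx i
      · rw [aeval_stabK]
        exact h3
      · rw [aeval_stabK]
        exact h4
    · intro y hy
      simp only [Finset.coe_filter, Set.Finite.mem_toFinset, Set.mem_ofPred_eq] at hy
      funext o
      rcases o with _ | _ | i
      · rfl
      · rfl
      · exact (congrFun hy.2 i).symm
    · intro p _
      rfl
  · intro y hy
    simp only [Set.Finite.coe_toFinset] at hy ⊢
    exact fun i => hy.1 (some (some i))

theorem t (hl : LIK) (hw : WL) : Pool.Agent.Helper74.HG.CNK := by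
  intro K _ _ σ _ f hf m hm
  have := finite_Tr K m
  have hA : (Arc K σ m).Finite := Set.toFinite _
  set q : ℤ := (Nat.card K : ℤ) with hq
  set F := hA.toFinset with hF
  have hcnt := cnt_eqK K f m hA
  have hAc : (F.card : ℤ) = q ^ (Fintype.card σ * m) := by
    rw [hF, ← Set.ncard_eq_toFinset_card _ hA, (hl K σ).1 m]
    push_cast
    rfl
  have hJ : ∀ k, k ≤ m → ((F.filter (fun x => x ∈ JetKO K f m k)).card : ℤ) =
      q ^ (Fintype.card σ * (m - k)) * cntK K f k := by
    intro k hk
    have h1 := (hl K σ).2 f m k hk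
    have h2 : (F.filter (fun x => x ∈ JetKO K f m k)).card = (JetKO K f m k).ncard := by
      have hfin : (JetKO K f m k).Finite := Set.toFinite _
      rw [Set.ncard_eq_toFinset_card _ hfin]
      congr 1
      ext x
      simp only [hF, Finset.mem_filter, Set.Finite.mem_toFinset]
      exact ⟨fun h => h.2, fun h => ⟨h.1, h⟩⟩
    rw [h2, h1]
    push_cast
    rfl
  have hpt : ∀ x ∈ F, ((Pr K m (aeval x f)).ncard : ℤ) =
      q ^ m * (((m : ℤ) - 1) * (q - 1) ^ 2 + q * (if x ∈ JetKO K f m m then 1 else 0) -
        ∑ k ∈ Finset.range m, ((m : ℤ) - k) * (q - 1) ^ 2 *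
          (if x ∈ JetKO K f m k then 1 else 0)) := by
    intro x hx
    rw [hF, Set.Finite.mem_toFinset] at hx
    have hc := aeval_memK K m f hf x hx
    obtain ⟨w1, w2, w3⟩ := hw K m hm (aeval x f) hc
    by_cases h0 : aeval x f = 0
    · have hno : ∀ k, x ∉ JetKO K f m k := by
        intro k h
        exact h.2.2 (by rw [h0, mul_zero])
      have e1 := w3 h0
      change ((Pr K m (aeval x f)).ncard : ℤ) = _ at e1
      rw [e1, if_neg (hno m), Finset.sum_eq_zero (fun k _ => by rw [if_neg (hno k), mul_zero])]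
      ring
    · obtain ⟨k, hk1, hkm, hk2, hk3⟩ := exists_order K m (aeval x f) hc h0
      have hin : x ∈ JetKO K f m k := ⟨hx, hk2, hk3⟩
      have hne : ∀ k', k' ≤ m → k' ≠ k → x ∉ JetKO K f m k' := by
        intro k' hk' hkk h
        exact hkk (order_unique K m (aeval x f) k' k hk' hkm h.2.1 h.2.2 hk2 hk3)
      rcases Nat.lt_or_ge k m with hlt | hge
      · have e1 := w1 k hk1 hlt hk2 hk3
        change ((Pr K m (aeval x f)).ncard : ℤ) = _ at e1
        rw [e1, if_neg (hne m le_rfl (by omega)), Finset.sum_eq_single k, if_pos hin]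
        · ring
        · intro b hb hbk
          rw [if_neg (hne b (Finset.mem_range.1 hb).le hbk), mul_zero]
        · intro h
          exact absurd (Finset.mem_range.2 hlt) h
      · have hkm' : k = m := by omega
        subst hkm'
        have e1 := w2 (by simpa using hk2) h0
        change ((Pr K k (aeval x f)).ncard : ℤ) = _ at e1
        rw [e1, if_pos hin, Finset.sum_eq_zero]
        · ring
        · intro b hb
          have hb' := Finset.mem_range.1 hb
          rw [if_neg (hne b hb'.le (by omega)), mul_zero]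
  have hsum : (cntK K (stabK f) m : ℤ) = ∑ x ∈ F, ((Pr K m (aeval x f)).ncard : ℤ) := by
    rw [hcnt]
    push_cast
    rfl
  rw [hsum, Finset.sum_congr rfl hpt, ← Finset.mul_sum, Finset.sum_sub_distrib,
    Finset.sum_add_distrib, Finset.sum_const, nsmul_eq_mul, hAc, ← Finset.mul_sum,
    Finset.sum_comm]
  congr 1
  have e1 : ∑ x ∈ F, (if x ∈ JetKO K f m m then (1 : ℤ) else 0) = cntK K f m := by
    rw [← Finset.sum_filter, Finset.sum_const, nsmul_eq_mul, mul_one, hJ m le_rfl]
    simp
  have e2 : ∀ k ∈ Finset.range m, ∑ x ∈ F, ((m : ℤ) - k) * (q - 1) ^ 2 *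
      (if x ∈ JetKO K f m k then (1 : ℤ) else 0) =
      ((m : ℤ) - k) * (q - 1) ^ 2 * q ^ (Fintype.card σ * (m - k)) * cntK K f k := by
    intro k hk
    rw [← Finset.mul_sum, ← Finset.sum_filter, Finset.sum_const, nsmul_eq_mul, mul_one,
      hJ k (Finset.mem_range.1 hk).le]
    ring
  rw [e1, Finset.sum_congr rfl e2]
  ring

end Pool.Agent.Helper55.HG.CNK
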