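import Pool.Agent.Helper74.HG.Goals

/-!
# Project HG, packet LIFT: arcs modulo different powers of `t`
-/

namespace Pool.Agent.Helper55.HG.LIFT

open Pool.Agent.Helper74.HG MvPolynomial

/-- preimages under a surjective homomorphism -/
lemma card_pre {G H : Type} [AddCommGroup G] [AddCommGroup H] (φ : G →+ H)
    (hs : Function.Surjective φ) (S : Set H) :
    (φ ⁻¹' S).ncard = Nat.card φ.ker * S.ncard := by
  rw [← Nat.card_coe_set_eq, ← Nat.card_coe_set_eq, ← Nat.card_prod]
  have hs' : ∀ y, φ (Function.surjInv hs y) = y := Function.surjInv_eq hs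
  refine Nat.card_congr
    ⟨fun x => (⟨x.1 - Function.surjInv hs (φ x.1), by
        rw [AddMonoidHom.mem_ker, map_sub, hs', sub_self]⟩, ⟨φ x.1, x.2⟩),
      fun p => ⟨p.1.1 + Function.surjInv hs p.2.1, by
        have h1 : φ p.1.1 = 0 := p.1.2
        rw [Set.mem_preimage, map_add, hs', h1, zero_add]
        exact p.2.2⟩, ?_, ?_⟩
  · intro x
    apply Subtype.ext
    simp
  · rintro ⟨⟨a, ha⟩, ⟨b, hb⟩⟩
    have ha' : φ a = 0 := ha
    apply Prod.ext
    · apply Subtype.ext
      simp [ha', hs']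
    · apply Subtype.ext
      simp [ha', hs']

lemma card_tr (K : Type) [Field K] [Finite K] (m : ℕ) :
    Nat.card (Tr K m) = Nat.card K ^ (m + 1) := by
  have hmon : ((Polynomial.X : Polynomial K) ^ (m + 1)).Monic := Polynomial.monic_X_pow _
  have h1 : Module.finrank K (AdjoinRoot ((Polynomial.X : Polynomial K) ^ (m + 1))) = m + 1 := by
    rw [(AdjoinRoot.powerBasis' hmon).finrank, AdjoinRoot.powerBasis'_dim,
      Polynomial.natDegree_X_pow]
  have : Module.Finite K (AdjoinRoot ((Polynomial.X : Polynomial K) ^ (m + 1))) :=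
    (AdjoinRoot.powerBasis' hmon).finite
  have h2 := Module.natCard_eq_pow_finrank (K := K)
    (V := AdjoinRoot ((Polynomial.X : Polynomial K) ^ (m + 1)))
  rw [h1] at h2
  exact h2

/-- the projection -/
noncomputable def pr (K : Type) [Field K] {m k : ℕ} (h : k ≤ m) : Tr K m →+* Tr K k :=
  Ideal.Quotient.factor (by
    rw [Ideal.span_singleton_le_span_singleton]
    exact pow_dvd_pow _ (by omega))

lemma pr_mk (K : Type) [Field K] {m k : ℕ} (h : k ≤ m) (p : Polynomial K) :
    pr K h (Ideal.Quotient.mk _ p) = Ideal.Quotient.mk _ p := rfl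

lemma pr_surj (K : Type) [Field K] {m k : ℕ} (h : k ≤ m) : Function.Surjective (pr K h) := by
  intro y
  obtain ⟨p, rfl⟩ := Ideal.Quotient.mk_surjective y
  exact ⟨Ideal.Quotient.mk _ p, rfl⟩

lemma mk_eq_zero (K : Type) [Field K] (m : ℕ) (p : Polynomial K) :
    (Ideal.Quotient.mk (Ideal.span {(Polynomial.X : Polynomial K) ^ (m + 1)}) p : Tr K m) = 0 ↔
      Polynomial.X ^ (m + 1) ∣ p := by
  rw [Ideal.Quotient.eq_zero_iff_mem, Ideal.mem_span_singleton]

lemma mem_t (K : Type) [Field K] (m : ℕ) (p : Polynomial K) :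
    (Ideal.Quotient.mk (Ideal.span {(Polynomial.X : Polynomial K) ^ (m + 1)}) p : Tr K m) ∈
      Ideal.span {tt K m} ↔ Polynomial.X ∣ p := by
  rw [Ideal.mem_span_singleton]
  constructor
  · rintro ⟨y, hy⟩
    obtain ⟨r, rfl⟩ := Ideal.Quotient.mk_surjective y
    rw [tt, ← map_mul] at hy
    have h1 : (Ideal.Quotient.mk (Ideal.span {(Polynomial.X : Polynomial K) ^ (m + 1)})
        (p - Polynomial.X * r) : Tr K m) = 0 := by
      rw [map_sub, hy, sub_self]
    rw [mk_eq_zero] at h1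
    have h2 : Polynomial.X ∣ p - Polynomial.X * r :=
      dvd_trans (dvd_pow_self _ (Nat.succ_ne_zero m)) h1
    have h3 := dvd_add h2 (dvd_mul_right Polynomial.X r)
    simpa using h3
  · rintro ⟨r, rfl⟩
    exact ⟨Ideal.Quotient.mk _ r, by rw [tt, ← map_mul]⟩

lemma pr_mem (K : Type) [Field K] {m k : ℕ} (h : k ≤ m) (y : Tr K m) :
    pr K h y ∈ Ideal.span {tt K k} ↔ y ∈ Ideal.span {tt K m} := by
  obtain ⟨p, rfl⟩ := Ideal.Quotient.mk_surjective y
  rw [pr_mk, mem_t, mem_t]

lemma tpow (K : Type) [Field K] {m k : ℕ} (h : k ≤ m) (j : ℕ) (hj : j ≤ k + 1) (y : Tr K m) :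
    tt K m ^ (m - k + j) * y = 0 ↔ tt K k ^ j * pr K h y = 0 := by
  obtain ⟨p, rfl⟩ := Ideal.Quotient.mk_surjective y
  rw [pr_mk, tt, tt, ← map_pow, ← map_pow, ← map_mul, ← map_mul, mk_eq_zero, mk_eq_zero]
  have hX : ∀ a : ℕ, (Polynomial.X : Polynomial K) ^ a ≠ 0 :=
    fun a => pow_ne_zero _ Polynomial.X_ne_zero
  have e1 : m + 1 = (m - k + j) + (k + 1 - j) := by omega
  have e2 : k + 1 = j + (k + 1 - j) := by omega
  rw [show (Polynomial.X : Polynomial K) ^ (m + 1) =
    Polynomial.X ^ (m - k + j) * Polynomial.X ^ (k + 1 - j) by rw [← pow_add, ← e1],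
    show (Polynomial.X : Polynomial K) ^ (k + 1) =
    Polynomial.X ^ j * Polynomial.X ^ (k + 1 - j) by rw [← pow_add, ← e2],
    mul_dvd_mul_iff_left (hX _), mul_dvd_mul_iff_left (hX _)]

/-- the projection on tuples -/
noncomputable def prs (K : Type) [Field K] (σ : Type) {m k : ℕ} (h : k ≤ m) :
    (σ → Tr K m) →+ (σ → Tr K k) where
  toFun x := fun i => pr K h (x i)
  map_zero' := by funext i; simp
  map_add' x y := by funext i; simp

lemma prs_apply (K : Type) [Field K] (σ : Type) {m k : ℕ} (h : k ≤ m) (x : σ → Tr K m) (i : σ) :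
    prs K σ h x i = pr K h (x i) := rfl

lemma prs_surj (K : Type) [Field K] (σ : Type) {m k : ℕ} (h : k ≤ m) :
    Function.Surjective (prs K σ h) := by
  intro y
  choose g hg using fun i => pr_surj K h (y i)
  exact ⟨g, funext hg⟩

lemma card_ker (K : Type) [Field K] [Finite K] (σ : Type) [Fintype σ] {m k : ℕ} (h : k ≤ m) :
    Nat.card (prs K σ h).ker = Nat.card K ^ (Fintype.card σ * (m - k)) := by
  have h1 := card_pre (prs K σ h) (prs_surj K σ h) Set.univ
  rw [Set.preimage_univ, Set.ncard_univ, Set.ncard_univ, Nat.card_fun, Nat.card_fun,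
    card_tr, card_tr, Nat.card_eq_fintype_card (α := σ), ← pow_mul, ← pow_mul] at h1
  have hq : 0 < Nat.card K := Nat.card_pos
  have e1 : (m + 1) * Fintype.card σ = Fintype.card σ * (m - k) + (k + 1) * Fintype.card σ := by
    obtain ⟨d, rfl⟩ := Nat.exists_eq_add_of_le h
    rw [Nat.add_sub_cancel_left]
    ring
  rw [e1, pow_add] at h1
  exact (Nat.eq_of_mul_eq_mul_right (pow_pos hq _) h1).symm

lemma arc_eq (K : Type) [Field K] (σ : Type) {m k : ℕ} (h : k ≤ m) :
    Arc K σ m = prs K σ h ⁻¹' Arc K σ k := by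
  ext x
  simp only [Arc, Set.mem_ofPred_eq, Set.mem_preimage, prs_apply, pr_mem]

lemma aeval_pr (K : Type) [Field K] {σ : Type} {m k : ℕ} (h : k ≤ m) (f : MvPolynomial σ ℤ)
    (x : σ → Tr K m) : pr K h (aeval x f) = aeval (prs K σ h x) f := by
  have h1 : ((pr K h).toIntAlgHom.comp (aeval x) : MvPolynomial σ ℤ →ₐ[ℤ] Tr K k) =
      aeval (prs K σ h x) := by
    apply MvPolynomial.algHom_ext
    intro i
    simp only [AlgHom.comp_apply, aeval_X]
    rfl
  exact DFunLike.congr_fun h1 f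

lemma jet_eq (K : Type) [Field K] {σ : Type} {m k : ℕ} (h : k ≤ m) (f : MvPolynomial σ ℤ) :
    JetO K f m k = prs K σ h ⁻¹' Jet K f k := by
  ext x
  simp only [JetO, Jet, Set.mem_ofPred_eq, Set.mem_preimage]
  rw [arc_eq K σ h, Set.mem_preimage, ← aeval_pr]
  have h1 := tpow K h 1 (by omega) (aeval x f)
  have h0 := tpow K h 0 (by omega) (aeval x f)
  rw [pow_one] at h1
  rw [pow_zero, one_mul, add_zero] at h0
  rw [h1, Ne, h0]

theorem t : LIFT := by
  intro K _ _ σ _
  refine ⟨fun m => ?_, fun f m k hk => ?_⟩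
  · rw [arc_eq K σ (Nat.zero_le m), card_pre _ (prs_surj K σ (Nat.zero_le m)), card_ker]
    have h1 : Arc K σ 0 = {0} := by
      ext x
      simp only [Arc, Set.mem_ofPred_eq, Set.mem_singleton_iff]
      have hz : ∀ y : Tr K 0, y ∈ Ideal.span {tt K 0} ↔ y = 0 := by
        intro y
        obtain ⟨p, rfl⟩ := Ideal.Quotient.mk_surjective y
        rw [mem_t, mk_eq_zero, zero_add, pow_one]
      constructor
      · intro hx
        funext i
        exact (hz _).1 (hx i)
      · rintro rfl i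
        exact (hz _).2 rfl
    rw [h1, Set.ncard_singleton, mul_one, Nat.sub_zero]
  · rw [jet_eq K hk f, card_pre _ (prs_surj K σ hk), card_ker]
    rfl

end Pool.Agent.Helper55.HG.LIFT
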