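import Pool.Agent.Helper74.HG.GoalsG
import Pool.Agent.Helper55.HG.LIFT

/-! # HG-PCN: the number of solutions of `f + w l = 0` modulo `p^m` -/

set_option autoImplicit false

namespace Pool.Agent.Helper55.HG.PCN

open MvPolynomial Pool.Agent.Helper74.HG

open scoped Classical

/-- reduction modulo `p^j` -/
noncomputable def rd (p : ℕ) {j m : ℕ} (h : j ≤ m) : ZMod (p ^ m) →+* ZMod (p ^ j) :=
  ZMod.castHom (pow_dvd_pow p h) (ZMod (p ^ j))

lemma neZ (p m : ℕ) [hp : Fact p.Prime] : NeZero (p ^ m) := ⟨pow_ne_zero _ hp.out.ne_zero⟩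

lemma mem_iff (p : ℕ) [hp : Fact p.Prime] {j m : ℕ} (hj : j ≤ m) (c : ZMod (p ^ m)) :
    c ∈ Ideal.span {((p : ZMod (p ^ m))) ^ j} ↔ rd p hj c = 0 := by
  have := neZ p m
  rw [Ideal.mem_span_singleton]
  constructor
  · rintro ⟨r, rfl⟩
    rw [map_mul, map_pow, map_natCast, ← Nat.cast_pow, ZMod.natCast_self, zero_mul]
  · intro h
    have h1 : c = ((c.val : ℕ) : ZMod (p ^ m)) := (ZMod.natCast_zmod_val c).symm
    rw [h1, map_natCast, ZMod.natCast_eq_zero_iff] at h
    obtain ⟨k, hk⟩ := h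
    rw [h1, hk]
    exact ⟨(k : ZMod (p ^ m)), by push_cast; ring⟩

lemma rd_surj (p : ℕ) [Fact p.Prime] {j m : ℕ} (hj : j ≤ m) : Function.Surjective (rd p hj) :=
  ZMod.castHom_surjective _

/-- reduction of tuples -/
noncomputable def rds (p : ℕ) (σ : Type) {j m : ℕ} (h : j ≤ m) :
    (σ → ZMod (p ^ m)) →+ (σ → ZMod (p ^ j)) where
  toFun x := fun i => rd p h (x i)
  map_zero' := by funext i; simp
  map_add' x y := by funext i; simp

lemma rds_surj (p : ℕ) [hp : Fact p.Prime] (σ : Type) {j m : ℕ} (h : j ≤ m) :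
    Function.Surjective (rds p σ h) := by
  intro y
  choose g hg using fun i => rd_surj p h (y i)
  exact ⟨g, funext hg⟩

lemma card_ker (p : ℕ) [hp : Fact p.Prime] (σ : Type) [Fintype σ] {j m : ℕ} (h : j ≤ m) :
    Nat.card (rds p σ h).ker = p ^ (Fintype.card σ * (m - j)) := by
  have h1 := LIFT.card_pre (rds p σ h) (rds_surj p σ h) Set.univ
  rw [Set.preimage_univ, Set.ncard_univ, Set.ncard_univ, Nat.card_fun, Nat.card_fun,
    Nat.card_zmod, Nat.card_zmod, Nat.card_eq_fintype_card (α := σ), ← pow_mul, ← pow_mul] at h1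
  have e1 : m * Fintype.card σ = Fintype.card σ * (m - j) + j * Fintype.card σ := by
    obtain ⟨d, rfl⟩ := Nat.exists_eq_add_of_le h
    rw [Nat.add_sub_cancel_left]
    ring
  rw [e1, pow_add] at h1
  exact (Nat.eq_of_mul_eq_mul_right (pow_pos hp.out.pos _) h1).symm

lemma card_ideal (p : ℕ) [hp : Fact p.Prime] {k m : ℕ} (h : k ≤ m) :
    Nat.card (Ideal.span {((p : ZMod (p ^ m))) ^ k} : Ideal (ZMod (p ^ m))) = p ^ (m - k) := by
  have e0 : ((Ideal.span {((p : ZMod (p ^ m))) ^ k} : Ideal (ZMod (p ^ m))) :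
      Set (ZMod (p ^ m))) = (rd p h).toAddMonoidHom ⁻¹' {0} := by
    ext c
    exact mem_iff p h c
  have h2 := LIFT.card_pre (rd p h).toAddMonoidHom (rd_surj p h) {0}
  have h1 := LIFT.card_pre (rd p h).toAddMonoidHom (rd_surj p h) Set.univ
  rw [Set.preimage_univ, Set.ncard_univ, Set.ncard_univ, Nat.card_zmod, Nat.card_zmod] at h1
  have e1 : m = (m - k) + k := by omega
  have h3 : p ^ m = p ^ (m - k) * p ^ k := by rw [← pow_add, ← e1]
  have h4 := Nat.eq_of_mul_eq_mul_right (pow_pos hp.out.pos _) (h3.symm.trans h1)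
  rw [Set.ncard_singleton, mul_one, ← e0, ← Nat.card_coe_set_eq, ← h4] at h2
  exact h2

lemma unit_pow (p : ℕ) [hp : Fact p.Prime] (m : ℕ) (x : ZMod (p ^ m)) :
    ∃ (u : (ZMod (p ^ m))ˣ) (k : ℕ), k ≤ m ∧ x = u * (p : ZMod (p ^ m)) ^ k := by
  have := neZ p m
  have hz : ((p : ZMod (p ^ m))) ^ m = 0 := by
    rw [← Nat.cast_pow, ZMod.natCast_self]
  by_cases h0 : x = 0
  · exact ⟨1, m, le_rfl, by rw [h0, hz, mul_zero]⟩
  · have hv : x.val ≠ 0 := by
      intro h
      exact h0 ((ZMod.val_eq_zero x).1 h)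
    obtain ⟨k, n', hn', hk⟩ := Nat.exists_eq_pow_mul_and_not_dvd hv p hp.out.ne_one
    have hcop : Nat.Coprime n' (p ^ m) :=
      Nat.Coprime.pow_right _ ((Nat.Prime.coprime_iff_not_dvd hp.out).2 hn').symm
    have hx : x = ((n' : ℕ) : ZMod (p ^ m)) * (p : ZMod (p ^ m)) ^ k := by
      conv_lhs => rw [← ZMod.natCast_zmod_val x, hk]
      push_cast
      ring
    have hkm : k ≤ m := by
      by_contra hlt
      apply h0
      rw [hx, show k = m + (k - m) by omega, pow_add, hz, zero_mul, mul_zero]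
    exact ⟨ZMod.unitOfCoprime n' hcop, k, hkm, by rw [ZMod.coe_unitOfCoprime]; exact hx⟩

lemma aeval_rd (p : ℕ) {σ : Type} {j m : ℕ} (h : j ≤ m) (f : MvPolynomial σ ℤ)
    (x : σ → ZMod (p ^ m)) : rd p h (aeval x f) = aeval (rds p σ h x) f := by
  have h1 : ((rd p h).toIntAlgHom.comp (aeval x) : MvPolynomial σ ℤ →ₐ[ℤ] ZMod (p ^ j)) =
      aeval (rds p σ h x) := by
    apply MvPolynomial.algHom_ext
    intro i
    simp only [AlgHom.comp_apply, aeval_X]
    rfl
  exact DFunLike.congr_fun h1 f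

lemma card_mem (p : ℕ) [hp : Fact p.Prime] {σ : Type} [Fintype σ] {j m : ℕ} (h : j ≤ m)
    (f : MvPolynomial σ ℤ) :
    {x : σ → ZMod (p ^ m) | aeval x f ∈ Ideal.span {((p : ZMod (p ^ m))) ^ j}}.ncard =
      p ^ (Fintype.card σ * (m - j)) * sol f p j := by
  have e0 : {x : σ → ZMod (p ^ m) | aeval x f ∈ Ideal.span {((p : ZMod (p ^ m))) ^ j}} =
      rds p σ h ⁻¹' {x | aeval x f = 0} := by
    ext x
    simp only [Set.mem_ofPred_eq, Set.mem_preimage]
    rw [mem_iff p h, aeval_rd]
  rw [e0, LIFT.card_pre _ (rds_surj p σ h), card_ker]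
  rfl

lemma aeval_stab (p m : ℕ) {σ : Type} (f : MvPolynomial σ ℤ)
    (y : Option (Option σ) → ZMod (p ^ m)) :
    aeval y (stab1 f) = aeval (fun i => y (some (some i))) f + y none * y (some none) := by
  unfold stab1
  rw [map_add, map_mul, aeval_X, aeval_X, aeval_rename]
  rfl

lemma sol_eq (p m : ℕ) [hp : Fact p.Prime] {σ : Type} [Fintype σ] [Fintype (σ → ZMod (p ^ m))]
    (f : MvPolynomial σ ℤ) :
    sol (stab1 f) p m = ∑ x : σ → ZMod (p ^ m),
      {q : ZMod (p ^ m) × ZMod (p ^ m) | q.1 * q.2 = - aeval x f}.ncard := by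
  have := neZ p m
  have h1 : ∀ x : σ → ZMod (p ^ m),
      {q : ZMod (p ^ m) × ZMod (p ^ m) | q.1 * q.2 = - aeval x f}.ncard =
      Nat.card {q : ZMod (p ^ m) × ZMod (p ^ m) // q.1 * q.2 = - aeval x f} := by
    intro x
    rw [← Nat.card_coe_set_eq]
    rfl
  rw [Finset.sum_congr rfl (fun x _ => h1 x), ← Nat.card_sigma]
  unfold sol
  rw [← Nat.card_coe_set_eq]
  refine Nat.card_congr
    ⟨fun y => ⟨fun i => y.1 (some (some i)), ⟨(y.1 none, y.1 (some none)), ?_⟩⟩,
      fun z => ⟨fun o => o.elim z.2.1.1 (fun o' => o'.elim z.2.1.2 z.1), ?_⟩, ?_, ?_⟩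
  · have h2 : aeval y.1 (stab1 f) = 0 := y.2
    rw [aeval_stab] at h2
    exact eq_neg_of_add_eq_zero_right h2
  · rw [Set.mem_ofPred_eq, aeval_stab]
    have h2 : z.2.1.1 * z.2.1.2 = - aeval z.1 f := z.2.2
    change aeval z.1 f + z.2.1.1 * z.2.1.2 = 0
    rw [h2, add_neg_cancel]
  · intro y
    apply Subtype.ext
    funext o
    rcases o with _ | _ | i <;> rfl
  · rintro ⟨x, ⟨⟨w, l⟩, h⟩⟩
    rfl

theorem t (hw : CHW) : Pool.Agent.Helper74.HG.PCN := by
  intro σ _ f p hp m
  have := neZ p m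
  rcases Nat.eq_zero_or_pos m with hm | hm
  · subst hm
    have h0 : ∀ (τ : Type) (g : MvPolynomial τ ℤ), sol g p 0 = 1 := by
      intro τ g
      unfold sol
      have hs : Subsingleton (ZMod (p ^ 0)) := by
        rw [pow_zero]
        infer_instance
      have e : {x : τ → ZMod (p ^ 0) | aeval x g = 0} = {fun _ => 0} := by
        ext x
        simp only [Set.mem_ofPred_eq, Set.mem_singleton_iff]
        exact ⟨fun _ => funext (fun i => Subsingleton.elim _ _), fun _ => Subsingleton.elim _ _⟩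
      rw [e, Set.ncard_singleton]
    rw [h0, h0]
    simp
  · set R := ZMod (p ^ m) with hR
    obtain ⟨c1, c2⟩ := hw R (p : R) p m hm hp.out.one_lt (fun k hk => card_ideal p hk)
      (unit_pow p m)
    have : Fintype (σ → R) := Fintype.ofFinite _
    have hle : p ^ (m - 1) ≤ p ^ m := Nat.pow_le_pow_right hp.out.pos (by omega)
    have hmono : ∀ i j : ℕ, i ≤ j → ∀ c : R, c ∈ Ideal.span {(p : R) ^ j} →
        c ∈ Ideal.span {(p : R) ^ i} := by
      intro i j hij c hc
      rw [Ideal.mem_span_singleton] at hc ⊢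
      exact (pow_dvd_pow _ hij).trans hc
    have hpt : ∀ x : σ → R, (({q : R × R | q.1 * q.2 = - aeval x f}.ncard : ℕ) : ℤ) =
        ∑ j ∈ Finset.range m, ((p : ℤ) ^ m - (p : ℤ) ^ (m - 1)) *
          (if aeval x f ∈ Ideal.span {(p : R) ^ j} then 1 else 0) +
        (p : ℤ) ^ m * (if aeval x f = 0 then 1 else 0) := by
      intro x
      by_cases h0 : aeval x f = 0
      · rw [h0, neg_zero, c2, if_pos rfl]
        have e : ∀ j ∈ Finset.range m, ((p : ℤ) ^ m - (p : ℤ) ^ (m - 1)) *
            (if (0 : R) ∈ Ideal.span {(p : R) ^ j} then 1 else 0) =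
            ((p : ℤ) ^ m - (p : ℤ) ^ (m - 1)) := by
          intro j _
          rw [if_pos (Ideal.zero_mem _), mul_one]
        rw [Finset.sum_congr rfl e, Finset.sum_const, Finset.card_range, nsmul_eq_mul,
          Nat.cast_add, Nat.cast_mul, Nat.cast_sub hle]
        push_cast
        ring
      · have hex : ∃ j, aeval x f ∉ Ideal.span {(p : R) ^ j} := by
          refine ⟨m, fun h => h0 ?_⟩
          rw [← Nat.cast_pow, ZMod.natCast_self] at h
          simpa using h
        have hk1 := Nat.find_spec hex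
        have hk0 : Nat.find hex ≠ 0 := by
          intro h
          rw [h, pow_zero] at hk1
          apply hk1
          rw [Ideal.mem_span_singleton]
          exact one_dvd _
        have hkm : Nat.find hex ≤ m := by
          refine Nat.find_min' hex (fun h => h0 ?_)
          rw [← Nat.cast_pow, ZMod.natCast_self] at h
          simpa using h
        obtain ⟨k, hk⟩ := Nat.exists_eq_succ_of_ne_zero hk0
        rw [hk] at hk1 hkm
        have hk2 : aeval x f ∈ Ideal.span {(p : R) ^ k} := by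
          have := Nat.find_min hex (show k < Nat.find hex by omega)
          exact not_not.1 this
        rw [c1 k (by omega) (- aeval x f) (neg_mem hk2) (fun h => hk1 (neg_mem_iff.1 h)),
          if_neg h0, mul_zero, add_zero, ← Finset.mul_sum]
        have e2 : ∑ j ∈ Finset.range m,
            (if aeval x f ∈ Ideal.span {(p : R) ^ j} then (1 : ℤ) else 0) = (k : ℤ) + 1 := by
          have e3 : ∀ j ∈ Finset.range m,
              (if aeval x f ∈ Ideal.span {(p : R) ^ j} then (1 : ℤ) else 0) =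
              if j < k + 1 then 1 else 0 := by
            intro j _
            by_cases hj : j < k + 1
            · rw [if_pos hj, if_pos (hmono j k (by omega) _ hk2)]
            · rw [if_neg hj, if_neg (fun h => hk1 (hmono (k + 1) j (by omega) _ h))]
          rw [Finset.sum_congr rfl e3, ← Finset.sum_filter, Finset.sum_const, nsmul_eq_mul,
            mul_one]
          have e4 : (Finset.range m).filter (fun j => j < k + 1) = Finset.range (k + 1) := by
            ext j
            simp only [Finset.mem_filter, Finset.mem_range]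
            omega
          rw [e4, Finset.card_range]
          push_cast
          ring
        rw [e2, Nat.cast_mul, Nat.cast_sub hle]
        push_cast
        ring
    rw [sol_eq p m f]
    rw [Nat.cast_sum, Finset.sum_congr rfl (fun x _ => hpt x), Finset.sum_add_distrib,
      Finset.sum_comm, ← Finset.mul_sum, add_comm]
    have hcard : ∀ (P : (σ → R) → Prop) [DecidablePred P], ∑ x : σ → R, (if P x then (1 : ℤ) else 0) =
        (({x : σ → R | P x}.ncard : ℕ) : ℤ) := by
      intro P _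
      rw [← Finset.sum_filter, Finset.sum_const, nsmul_eq_mul, mul_one]
      congr 1
      rw [Set.ncard_eq_toFinset_card _ (Set.toFinite _)]
      congr 1
      ext x
      simp
    congr 1
    · rw [hcard]
      rfl
    · refine Finset.sum_congr rfl (fun j hj => ?_)
      rw [← Finset.mul_sum, hcard, card_mem p (Finset.mem_range.1 hj).le f]
      push_cast
      ring

end Pool.Agent.Helper55.HG.PCN
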